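import Mathlib
import Pool.Agent.R665.FJ.Crit

/-!
Eventually periodic functions with values in a group of the class.
-/

set_option autoImplicit false

namespace Pool.Agent.R632.FR

open Pool.Agent.Y110.FJ
open Pool.Agent.Y462.SS (Closed Wr)

section PL

variable (A : Type) [Group A] (l : ℕ)

/-- Functions on `ℤ` that agree with periodic functions at both ends, and translations. -/
def PL : Subgroup (Wr ℤ A × Wr (ZMod l) A × Wr (ZMod l) A) where
  carrier := {x | ∃ m : ℤ, (∀ n, x.1.p n = n + m) ∧ (∀ r, x.2.1.p r = r + m) ∧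
    (∀ r, x.2.2.p r = r + m) ∧
    ∃ M : ℤ, (∀ n : ℤ, M ≤ n → x.1.s n = x.2.1.s n) ∧ ∀ n : ℤ, n ≤ -M → x.1.s n = x.2.2.s n}
  one_mem' := ⟨0, by simp, by simp, by simp, 0, fun _ _ => rfl, fun _ _ => rfl⟩
  mul_mem' := by
    rintro x y ⟨m, h1, h2, h3, M, h4, h5⟩ ⟨m', h1', h2', h3', M', h4', h5'⟩
    refine ⟨m' + m, ?_, ?_, ?_, max (M + |m'|) M', ?_, ?_⟩
    · intro n
      show x.1.p (y.1.p n) = _
      rw [h1', h1, add_assoc]
    · intro n
      show x.2.1.p (y.2.1.p n) = _
      rw [h2', h2]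
      push_cast
      rw [add_assoc]
    · intro n
      show x.2.2.p (y.2.2.p n) = _
      rw [h3', h3]
      push_cast
      rw [add_assoc]
    · intro n hn
      show x.1.s (y.1.p n) * y.1.s n = x.2.1.s (y.2.1.p n) * y.2.1.s n
      have e1 := le_max_left (M + |m'|) M'
      have e2 := le_max_right (M + |m'|) M'
      have e3 := neg_abs_le m'
      rw [h1', h2', h4 _ (by linarith), h4' n (by linarith)]
      push_cast
      rfl
    · intro n hn
      show x.1.s (y.1.p n) * y.1.s n = x.2.2.s (y.2.2.p n) * y.2.2.s n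
      have e1 := le_max_left (M + |m'|) M'
      have e2 := le_max_right (M + |m'|) M'
      have e3 := le_abs_self m'
      rw [h1', h3', h5 _ (by linarith), h5' n (by linarith)]
      push_cast
      rfl
  inv_mem' := by
    rintro x ⟨m, h1, h2, h3, M, h4, h5⟩
    have i1 : ∀ n, x.1.p⁻¹ n = n + ((-m : ℤ) : ℤ) := by
      intro n
      rw [Equiv.Perm.inv_eq_iff_eq, h1]
      ring
    have i2 : ∀ n, x.2.1.p⁻¹ n = n + ((-m : ℤ) : ZMod l) := by
      intro n
      rw [Equiv.Perm.inv_eq_iff_eq, h2]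
      push_cast
      ring
    have i3 : ∀ n, x.2.2.p⁻¹ n = n + ((-m : ℤ) : ZMod l) := by
      intro n
      rw [Equiv.Perm.inv_eq_iff_eq, h3]
      push_cast
      ring
    refine ⟨-m, i1, i2, i3, M + |m|, ?_, ?_⟩
    · intro n hn
      show (x.1.s (x.1.p⁻¹ n))⁻¹ = (x.2.1.s (x.2.1.p⁻¹ n))⁻¹
      have e3 := le_abs_self m
      rw [i1, i2, h4 _ (by linarith)]
      push_cast
      rfl
    · intro n hn
      show (x.1.s (x.1.p⁻¹ n))⁻¹ = (x.2.2.s (x.2.2.p⁻¹ n))⁻¹
      have e3 := neg_abs_le m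
      rw [i1, i3, h5 _ (by linarith)]
      push_cast
      rfl

/-- the translation length -/
def tr : PL A l →* Multiplicative ℤ where
  toFun x := Multiplicative.ofAdd (x.1.1.p 0)
  map_one' := rfl
  map_mul' x y := by
    obtain ⟨m, h1, _⟩ := x.2
    show Multiplicative.ofAdd (x.1.1.p (y.1.1.p 0)) = _
    rw [h1, h1 0, ← ofAdd_add]
    congr 1
    ring

theorem C_PL {C : ∀ (G : Type) [Group G], Prop} (hC : ClosedE C) (hA : C A) [NeZero l] :
    C (PL A l) := by
  have hW : C (Wr (ZMod l) A) := Pool.Agent.Y812.SS.t_wr C hC.base (ZMod l) A inferInstance hA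
  let π : PL A l →* (Wr (ZMod l) A × Wr (ZMod l) A) × Multiplicative ℤ :=
    (((MonoidHom.snd _ _).comp (PL A l).subtype)).prod (tr A l)
  refine Pool.Agent.R665.FJ.wr_crit hC ℤ A (PL A l) _ hA
    (hC.base.prod _ _ (hC.base.prod _ _ hW hW) hC.base.int)
    ((MonoidHom.fst _ _).comp (PL A l).subtype) π ?_
  rintro ⟨⟨x, u, v⟩, m, h1, h2, h3, M, h4, h5⟩ hx
  have hu : u = 1 := congrArg (fun z => z.1.1) hx
  have hv : v = 1 := congrArg (fun z => z.1.2) hx
  have hp0 : x.p 0 = 0 := congrArg (fun z => Multiplicative.toAdd z.2) hx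
  have hp : x.p = 1 := by
    apply Equiv.ext
    intro n
    have e1 := h1 n
    have e0 := h1 0
    simp only at e1 e0
    rw [hp0] at e0
    rw [e1]
    simp only [Equiv.Perm.coe_one, id_eq]
    linarith
  subst hu
  subst hv
  refine ⟨⟨Set.Icc (-M) M, Set.finite_Icc _ _, hp, ?_⟩, ?_⟩
  · intro n hn
    rw [Set.mem_Icc, not_and_or, not_le, not_le] at hn
    rcases hn with hn | hn
    · exact h5 n hn.le
    · exact h4 n hn.le
  · intro hx1
    apply Subtype.ext
    have : x = 1 := hx1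
    subst this
    rfl

end PL

section iter

variable {Y : Type}

theorem iter_per (f : Y → Y) (hf : (Set.range f).Finite) :
    ∃ M l : ℕ, 0 < l ∧ ∀ n, M ≤ n → ∀ y, f^[n + l] y = f^[n] y := by
  have : Finite (Set.range f) := hf
  let F : Set.range f → Set.range f := fun s => ⟨f s, s, rfl⟩
  have hF : ∀ (n : ℕ) (s : Set.range f), ((F^[n] s : Set.range f) : Y) = f^[n] s := by
    intro n
    induction n with
    | zero => intro s; rfl
    | succ n ih =>
      intro s
      rw [Function.iterate_succ_apply, Function.iterate_succ_apply, ih]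
  obtain ⟨i, j, hij, h⟩ := Finite.exists_ne_map_eq_of_infinite (fun n : ℕ => F^[n])
  have key : ∀ i j : ℕ, i < j → F^[i] = F^[j] → ∃ M l : ℕ, 0 < l ∧ ∀ n, M ≤ n →
      ∀ y, f^[n + l] y = f^[n] y := by
    intro i j hij h
    refine ⟨i + 1, j - i, by omega, ?_⟩
    intro n hn y
    obtain ⟨k, rfl⟩ := Nat.exists_eq_add_of_le hn
    have h1 : f^[i] (f y) = f^[j] (f y) := by
      have := congrArg Subtype.val (congrFun h ⟨f y, y, rfl⟩)
      rw [hF, hF] at this
      exact this
    have e1 : i + 1 + k + (j - i) = k + (j + 1) := by omega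
    have e2 : i + 1 + k = k + (i + 1) := by omega
    rw [e1, e2, Function.iterate_add_apply f k (j + 1), Function.iterate_add_apply f k (i + 1),
      Function.iterate_succ_apply f j, Function.iterate_succ_apply f i, h1]
  rcases Nat.lt_or_gt_of_ne hij with h1 | h1
  · exact key i j h1 h
  · exact key j i h1 h.symm

theorem iter_mod {f : Y → Y} {M l : ℕ} (h : ∀ n, M ≤ n → ∀ y, f^[n + l] y = f^[n] y) (y : Y) :
    ∀ a b : ℕ, M ≤ a → M ≤ b → a % l = b % l → f^[a] y = f^[b] y := by
  have key : ∀ k a : ℕ, M ≤ a → f^[a + l * k] y = f^[a] y := by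
    intro k
    induction k with
    | zero => intro a _; rfl
    | succ k ih =>
      intro a ha
      rw [Nat.mul_succ, ← add_assoc, h _ (by omega), ih a ha]
  have key2 : ∀ a b : ℕ, M ≤ a → a ≤ b → a % l = b % l → f^[a] y = f^[b] y := by
    intro a b ha hab hm
    obtain ⟨k, hk⟩ := (Nat.modEq_iff_dvd' hab).1 hm
    have : b = a + l * k := by omega
    rw [this, key k a ha]
  intro a b ha hb hm
  rcases le_total a b with hab | hab
  · exact key2 a b ha hab hm
  · exact (key2 b a hb hab hm.symm).symm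

/-- the limit at infinity of the iterates -/
def lim (f : Y → Y) (M l : ℕ) (y : Y) (r : ZMod l) : Y := f^[r.val + l * M] y

theorem lim_eq {f : Y → Y} {M l : ℕ} [NeZero l]
    (h : ∀ n, M ≤ n → ∀ y, f^[n + l] y = f^[n] y) (y : Y) (k : ℕ) (hk : M ≤ k) :
    f^[k] y = lim f M l y (k : ZMod l) := by
  unfold lim
  apply iter_mod h y _ _ hk
  · have : 1 ≤ l := Nat.one_le_iff_ne_zero.2 (NeZero.ne l)
    nlinarith
  · rw [ZMod.val_natCast, Nat.add_mul_mod_self_left, Nat.mod_mod]

end iter

end Pool.Agent.R632.FR
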