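import Mathlib
import Pool.Agent.R632.FR.Seq

/-!
Unrestricted wreath products and functions with finite range.
-/

set_option autoImplicit false

namespace Pool.Agent.R632.FR

open Pool.Agent.Y110.FJ
open Pool.Agent.Y462.SS (Closed Wr)
open Pool.Agent.R665.FJ (conj_s conj_p)

variable {Y A : Type} [Group A]

/-- the base group -/
def base (Y A : Type) [Group A] : Subgroup (Wr Y A) where
  carrier := {x | x.p = 1}
  one_mem' := rfl
  mul_mem' := by
    intro a b ha hb
    show a.p * b.p = 1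
    rw [show a.p = 1 from ha, show b.p = 1 from hb, one_mul]
  inv_mem' := by
    intro a ha
    show a.p⁻¹ = 1
    rw [show a.p = 1 from ha, inv_one]

/-- composition with a map of points -/
def pull {J : Type} (y : J → Y) : base Y A →* Wr J A where
  toFun x := ⟨fun j => x.1.s (y j), 1⟩
  map_one' := rfl
  map_mul' a b := by
    ext j
    · have : b.1.p = 1 := b.2
      simp [this]
    · simp

theorem pull_conj {J : Type} (y : J → Y) (σ : Equiv.Perm J) (g : Wr Y A) (x z : base Y A)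
    (hz : z.1 = g * x.1 * g⁻¹) (hy : ∀ j, x.1.s (g.p.symm (y (σ j))) = x.1.s (y j)) :
    pull y z = ⟨fun j => g.s (g.p.symm (y (σ j))), σ⟩ * pull y x *
      (⟨fun j => g.s (g.p.symm (y (σ j))), σ⟩ : Wr J A)⁻¹ := by
  have h1 : (pull y x : Wr J A).p = 1 := rfl
  apply Wr.ext
  · funext j'
    obtain ⟨j, rfl⟩ := σ.surjective j'
    have h2 := conj_s (⟨fun j => g.s (g.p.symm (y (σ j))), σ⟩ : Wr J A) (pull y x) h1 j
    have h2' : ((⟨fun j => g.s (g.p.symm (y (σ j))), σ⟩ : Wr J A) * pull y x *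
      (⟨fun j => g.s (g.p.symm (y (σ j))), σ⟩ : Wr J A)⁻¹).s (σ j) =
        g.s (g.p.symm (y (σ j))) * x.1.s (y j) * (g.s (g.p.symm (y (σ j))))⁻¹ := h2
    rw [h2', ← hy j]
    show z.1.s (y (σ j)) = _
    have h3 := conj_s g x.1 x.2 (g.p.symm (y (σ j)))
    rw [Equiv.apply_symm_apply] at h3
    rw [hz, h3]
  · rw [conj_p _ _ h1]
    rfl

/-- A sequence of points with limits at both ends. -/
structure Sq (Y : Type) (l : ℕ) where
  c : ℤ → Y
  u : ZMod l → Y
  v : ZMod l → Y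
  M : ℤ
  hu : ∀ n : ℤ, M ≤ n → c n = u n
  hv : ∀ n : ℤ, n ≤ -M → c n = v n

/-- evaluation along a sequence -/
def ev {l : ℕ} (q : Sq Y l) : base Y A →* PL A l :=
  ((pull q.c).prod ((pull q.u).prod (pull q.v))).codRestrict (PL A l) (by
    intro x
    refine ⟨0, ?_, ?_, ?_, q.M, ?_, ?_⟩
    · intro n
      exact (add_zero n).symm
    · intro n
      show n = n + ((0 : ℤ) : ZMod l)
      rw [Int.cast_zero, add_zero]
    · intro n
      show n = n + ((0 : ℤ) : ZMod l)
      rw [Int.cast_zero, add_zero]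
    · intro n hn
      show x.1.s (q.c n) = x.1.s (q.u n)
      rw [q.hu n hn]
    · intro n hn
      show x.1.s (q.c n) = x.1.s (q.v n)
      rw [q.hv n hn])

theorem ev_one {l : ℕ} (q : Sq Y l) (x : base Y A) (h : ev q x = 1) (n : ℤ) :
    x.1.s (q.c n) = 1 :=
  congrArg (fun z => z.1.1.s n) h

theorem ev_conj {l : ℕ} (q : Sq Y l) (g : Wr Y A) :
    ∃ p : PL A l, ∀ x z : base Y A, z.1 = g * x.1 * g⁻¹ →
      (∀ n, x.1.s (g.p.symm (q.c (n + 1))) = x.1.s (q.c n)) →
      (∀ n, x.1.s (g.p.symm (q.u (n + 1))) = x.1.s (q.u n)) →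
      (∀ n, x.1.s (g.p.symm (q.v (n + 1))) = x.1.s (q.v n)) →
      ev q z = p * ev q x * p⁻¹ := by
  refine ⟨⟨(⟨fun j => g.s (g.p.symm (q.c (j + 1))), Equiv.addRight 1⟩,
    ⟨fun j => g.s (g.p.symm (q.u (j + 1))), Equiv.addRight 1⟩,
    ⟨fun j => g.s (g.p.symm (q.v (j + 1))), Equiv.addRight 1⟩), 1, ?_, ?_, ?_, |q.M| + 1,
      ?_, ?_⟩, ?_⟩
  · intro n
    rfl
  · intro n
    show n + 1 = n + ((1 : ℤ) : ZMod l)
    rw [Int.cast_one]
  · intro n
    show n + 1 = n + ((1 : ℤ) : ZMod l)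
    rw [Int.cast_one]
  · intro n hn
    show g.s (g.p.symm (q.c (n + 1))) = g.s (g.p.symm (q.u (n + 1)))
    have := le_abs_self q.M
    rw [q.hu (n + 1) (by linarith)]
    push_cast
    rfl
  · intro n hn
    show g.s (g.p.symm (q.c (n + 1))) = g.s (g.p.symm (q.v (n + 1)))
    have := le_abs_self q.M
    rw [q.hv (n + 1) (by linarith)]
    push_cast
    rfl
  · intro x z hz h1 h2 h3
    apply Subtype.ext
    refine Prod.ext ?_ (Prod.ext ?_ ?_)
    · exact pull_conj q.c (Equiv.addRight 1) g x z hz h1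
    · exact pull_conj q.u (Equiv.addRight 1) g x z hz h2
    · exact pull_conj q.v (Equiv.addRight 1) g x z hz h3

section seq

variable (h : Equiv.Perm Y) (r : Y → Y)

/-- forward map -/
def fw (y : Y) : Y := h (r y)

/-- backward map -/
def bw (y : Y) : Y := r (h.symm y)

/-- the sequence of a point -/
def cc (y : Y) (n : ℤ) : Y :=
  if 0 ≤ n then (fw h r)^[n.toNat] y else (bw h r)^[(-n).toNat] y

theorem cc_fw (y : Y) (n : ℕ) : cc h r y n = (fw h r)^[n] y := by
  unfold cc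
  rw [if_pos (by omega), Int.toNat_natCast]

theorem cc_bw (y : Y) (n : ℕ) : cc h r y (-n) = (bw h r)^[n] y := by
  unfold cc
  by_cases hn : n = 0
  · subst hn
    rfl
  · rw [if_neg (by omega), neg_neg, Int.toNat_natCast]

/-- the relation between consecutive points -/
theorem cc_rel {T : Type} (τ : Y → T) (hr : ∀ y, τ (r y) = τ y) (y : Y) (n : ℤ) :
    τ (h.symm (cc h r y (n + 1))) = τ (cc h r y n) := by
  by_cases hn : 0 ≤ n
  · obtain ⟨k, rfl⟩ := Int.eq_ofNat_of_zero_le hn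
    rw [cc_fw, show ((k : ℤ) + 1) = ((k + 1 : ℕ) : ℤ) by push_cast; rfl, cc_fw,
      Function.iterate_succ_apply']
    unfold fw
    rw [Equiv.symm_apply_apply]
    exact hr _
  · obtain ⟨k, hk⟩ : ∃ k : ℕ, n = -((k + 1 : ℕ) : ℤ) := ⟨(-n - 1).toNat, by omega⟩
    subst hk
    rw [cc_bw, show (-((k + 1 : ℕ) : ℤ) + 1) = -(k : ℤ) by push_cast; ring, cc_bw,
      Function.iterate_succ_apply']
    exact (hr _).symm

end seq

theorem exists_seq (h : Equiv.Perm Y) (r : Y → Y) (hrf : (Set.range r).Finite) :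
    ∃ (l : ℕ) (_ : NeZero l) (q : Y → Sq Y l), (∀ y, (q y).c 0 = y) ∧
      ∀ (T : Type) (τ : Y → T), (∀ y, τ (r y) = τ y) → ∀ y,
        (∀ n, τ (h.symm ((q y).c (n + 1))) = τ ((q y).c n)) ∧
        (∀ n, τ (h.symm ((q y).u (n + 1))) = τ ((q y).u n)) ∧
        (∀ n, τ (h.symm ((q y).v (n + 1))) = τ ((q y).v n)) := by
  have hf : (Set.range (fw h r)).Finite := by
    refine (hrf.image h).subset ?_
    rintro _ ⟨y, rfl⟩
    exact ⟨r y, ⟨y, rfl⟩, rfl⟩
  have hb : (Set.range (bw h r)).Finite := by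
    refine hrf.subset ?_
    rintro _ ⟨y, rfl⟩
    exact ⟨h.symm y, rfl⟩
  obtain ⟨M1, l1, hl1, h1⟩ := iter_per _ hf
  obtain ⟨M2, l2, hl2, h2⟩ := iter_per _ hb
  have mult : ∀ (f : Y → Y) (M l : ℕ), (∀ n, M ≤ n → ∀ y, f^[n + l] y = f^[n] y) →
      ∀ (k M' : ℕ), M ≤ M' → ∀ n, M' ≤ n → ∀ y, f^[n + l * k] y = f^[n] y := by
    intro f M l hfl k M' hM n hn y
    apply iter_mod hfl y _ _ (by omega) (by omega)
    rw [Nat.add_mul_mod_self_left]
  let l := l1 * l2
  let M := max M1 M2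
  have hl : NeZero l := ⟨(Nat.mul_pos hl1 hl2).ne'⟩
  have H1 : ∀ n, M ≤ n → ∀ y, (fw h r)^[n + l] y = (fw h r)^[n] y :=
    mult _ _ _ h1 l2 M (le_max_left _ _)
  have H2 : ∀ n, M ≤ n → ∀ y, (bw h r)^[n + l] y = (bw h r)^[n] y := by
    have := mult _ _ _ h2 l1 M (le_max_right _ _)
    intro n hn y
    have h3 := this n hn y
    rw [mul_comm] at h3
    exact h3
  have HU : ∀ (y : Y) (n : ℤ), (M : ℤ) ≤ n → cc h r y n = lim (fw h r) M l y n := by
    intro y n hn
    obtain ⟨k, rfl⟩ := Int.eq_ofNat_of_zero_le (show 0 ≤ n by omega)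
    rw [cc_fw, lim_eq H1 y k (by omega), Int.cast_natCast]
  have HV : ∀ (y : Y) (n : ℤ), n ≤ -(M : ℤ) → cc h r y n = lim (bw h r) M l y (-n) := by
    intro y n hn
    obtain ⟨k, hk⟩ := Int.eq_ofNat_of_zero_le (show 0 ≤ -n by omega)
    have : n = -(k : ℤ) := by omega
    subst this
    rw [cc_bw, lim_eq H2 y k (by omega)]
    push_cast
    rw [neg_neg]
  refine ⟨l, hl, fun y => ⟨cc h r y, lim (fw h r) M l y, fun n => lim (bw h r) M l y (-n), M,
    HU y, HV y⟩, ?_, ?_⟩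
  · intro y
    exact cc_fw h r y 0
  · intro T τ hτ y
    refine ⟨cc_rel h r τ hτ y, ?_, ?_⟩
    · intro n
      show τ (h.symm (lim (fw h r) M l y (n + 1))) = τ (lim (fw h r) M l y n)
      have e0 : ((((n.val + l * M : ℕ) : ℤ)) : ZMod l) = n := by
        push_cast
        rw [ZMod.natCast_zmod_val, ZMod.natCast_self, zero_mul, add_zero]
      have hM : (M : ℤ) ≤ ((n.val + l * M : ℕ) : ℤ) := by
        have : 1 ≤ l := Nat.one_le_iff_ne_zero.2 hl.ne
        have : M ≤ n.val + l * M := by nlinarith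
        exact_mod_cast this
      have := cc_rel h r τ hτ y ((n.val + l * M : ℕ) : ℤ)
      rw [HU y _ hM, HU y _ (by omega), Int.cast_add, e0, Int.cast_one] at this
      exact this
    · intro n
      show τ (h.symm (lim (bw h r) M l y (-(n + 1)))) = τ (lim (bw h r) M l y (-n))
      let m : ZMod l := -(n + 1)
      have e0 : ((((m.val + l * M : ℕ) : ℤ)) : ZMod l) = m := by
        push_cast
        rw [ZMod.natCast_zmod_val, ZMod.natCast_self, zero_mul, add_zero]
      have hM : (M : ℤ) ≤ ((m.val + l * M : ℕ) : ℤ) := by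
        have : 1 ≤ l := Nat.one_le_iff_ne_zero.2 hl.ne
        have : M ≤ m.val + l * M := by nlinarith
        exact_mod_cast this
      have := cc_rel h r τ hτ y (-((m.val + l * M : ℕ) : ℤ) - 1)
      rw [sub_add_cancel, HV y _ (by omega), HV y _ (by omega), Int.cast_sub, Int.cast_neg,
        neg_neg, e0, Int.cast_one] at this
      have e1 : -(-m - 1 : ZMod l) = -n := by
        show -((-(-(n + 1)) : ZMod l) - 1) = -n
        ring
      rw [e1] at this
      exact this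

/-- representatives for a function with finite range -/
theorem exists_rep {T : Type} (τ : Y → T) (hτ : (Set.range τ).Finite) :
    ∃ r : Y → Y, (Set.range r).Finite ∧ ∀ y, τ (r y) = τ y := by
  have : Finite (Set.range τ) := hτ
  refine ⟨fun y => Set.rangeSplitting τ ⟨τ y, y, rfl⟩, ?_, ?_⟩
  · refine (Set.finite_range (Set.rangeSplitting τ)).subset ?_
    rintro _ ⟨y, rfl⟩
    exact ⟨_, rfl⟩
  · intro y
    exact Set.apply_rangeSplitting τ _

/-- **The theorem.** -/
theorem fr {C : ∀ (G : Type) [Group G], Prop} (hC : ClosedE C) (hA : C A) {G : Type} [Group G]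
    (N : Subgroup G) [N.Normal] (hQ : C (G ⧸ N)) (Φ : G →* Wr Y A)
    (hN : ∀ n ∈ N, (Φ n).p = 1 ∧ (Set.range (Φ n).s).Finite ∧ (Φ n = 1 → n = 1)) : C G := by
  refine Pool.Agent.R779.FJ.t_crit Pool.Agent.Y529.FJ.t_ext
    (Pool.Agent.Y961.FJ.t_perm Pool.Agent.Y529.FJ.t_ext) C hC G N hQ ?_
  intro g E hE hEN
  have tup : ∀ E : Set G, E.Finite → E ⊆ N →
      (Set.range (fun (y : Y) (x : E) => (Φ x).s y)).Finite := by
    intro E hE hEN
    have : Finite E := hE
    have h1 : {f : E → A | ∀ x : E, f x ∈ Set.range (Φ (x : G)).s}.Finite :=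
      Set.Finite.pi' (fun x : E => (hN x (hEN x.2)).2.1)
    refine h1.subset ?_
    rintro _ ⟨y, rfl⟩ x
    exact ⟨y, rfl⟩
  let E' : Set G := E ∪ (fun x => g * x * g⁻¹) '' E
  have hE' : E'.Finite := hE.union (hE.image _)
  have hEN' : E' ⊆ N := by
    rintro x (hx | ⟨x, hx, rfl⟩)
    · exact hEN hx
    · exact (inferInstance : N.Normal).conj_mem x (hEN hx) g
  obtain ⟨r, hrf, hr⟩ := exists_rep _ (tup E hE hEN)
  obtain ⟨r', hrf', hr'⟩ := exists_rep _ (tup E' hE' hEN')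
  have hrx : ∀ x ∈ E, ∀ y, (Φ x).s (r y) = (Φ x).s y := fun x hx y => congrFun (hr y) ⟨x, hx⟩
  have hrx' : ∀ x ∈ E', ∀ y, (Φ x).s (r' y) = (Φ x).s y := fun x hx y =>
    congrFun (hr' y) ⟨x, hx⟩
  obtain ⟨l, hl, q, hq0, hq⟩ := exists_seq (Φ g).p r hrf
  have hcl : Subgroup.closure E' ≤ N := by
    rw [Subgroup.closure_le]
    exact hEN'
  have hrc : ∀ x ∈ Subgroup.closure E', ∀ y, (Φ x).s (r' y) = (Φ x).s y := by
    intro x hx
    have h1 : ∀ x ∈ Subgroup.closure E', (Φ x).p = 1 := fun x hx => (hN x (hcl hx)).1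
    induction hx using Subgroup.closure_induction with
    | mem x hx => exact hrx' x hx
    | one => intro y; rw [map_one]; rfl
    | mul a b ha hb iha ihb =>
      intro y
      rw [map_mul, Wr.mul_s, Wr.mul_s, h1 b hb, Equiv.Perm.one_apply, Equiv.Perm.one_apply,
        iha, ihb]
    | inv a ha iha =>
      intro y
      have h2 : (Φ a).p⁻¹ = 1 := by rw [h1 a ha, inv_one]
      rw [map_inv, Wr.inv_s, Wr.inv_s, h2, Equiv.Perm.one_apply, Equiv.Perm.one_apply, iha]
  choose p hp using fun y : Set.range r' => ev_conj (A := A) (q (y : Y)) (Φ g)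
  have : Finite (Set.range r') := hrf'
  have hPL : C (PL A l) := C_PL A l hC hA
  let Ψ : ↥(Subgroup.closure E') →* base Y A :=
    (Φ.comp (Subgroup.closure E').subtype).codRestrict _ (fun x => (hN x (hcl x.2)).1)
  refine ⟨Set.range r' → PL A l, inferInstance,
    MonoidHom.pi (fun y => (ev (q (y : Y))).comp Ψ), p,
    Pool.Agent.Y812.SS.C_pow hC.base (Set.range r') (PL A l) hPL, ?_, ?_⟩
  · rw [injective_iff_map_eq_one]
    intro x hx
    have h1 : ∀ y, (Φ x).s y = 1 := by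
      intro y
      rw [← hrc x x.2 y]
      have h2 := congrFun hx ⟨r' y, y, rfl⟩
      have h3 := ev_one _ _ h2 0
      rw [hq0] at h3
      exact h3
    have h2 : Φ x = 1 := by
      apply Wr.ext
      · funext y
        exact h1 y
      · exact (hN x (hcl x.2)).1
    exact Subtype.ext ((hN x (hcl x.2)).2.2 h2)
  · intro x y hx hy
    funext y0
    refine hp y0 (Ψ x) (Ψ y) ?_ ?_ ?_ ?_
    · show Φ y = Φ g * Φ x * (Φ g)⁻¹
      rw [hy, map_mul, map_mul, map_inv]
    · exact (hq _ (Φ (x : G)).s (hrx x hx) y0).1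
    · exact (hq _ (Φ (x : G)).s (hrx x hx) y0).2.1
    · exact (hq _ (Φ (x : G)).s (hrx x hx) y0).2.2

end Pool.Agent.R632.FR
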